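import Pool.Agent.H41.CP.GMain
import Pool.Agent.H41.CP.Main3

set_option autoImplicit false

/-!
MP_6af60b_co: for `r ≥ 3` every graph with maximum average degree less than `r + 2` has
correspondence packing number at most `2r`, so `b(k) ≥ ⌊k/2⌋ + 2` for every `k ≥ 6`.
-/

namespace Pool.Agent.Results.MP_6af60b_co.EvenCovers

open Pool.Agent.H41.CP

theorem two_r (r : ℕ) (hr : 3 ≤ r) (V : Type) [Fintype V] (G : SimpleGraph V)
    (h : MadLT G (r + 2)) (C : Cover G (2 * r)) : C.HasPacking := by
  rcases Nat.lt_or_ge 3 r with h4 | h3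
  · exact Pool.Agent.H41.CPG.packing_even G r h4 h C
  · obtain rfl : r = 3 := le_antisymm h3 hr
    have h5 : MadLT G 5 := by
      have e : ((3 : ℕ) : ℝ) + 2 = 5 := by norm_num
      rwa [e] at h
    exact packs6 G h5 C

/-- Let `k ≥ 6` and let `G` be a finite graph with `mad(G) < ⌊k/2⌋ + 2`. Then the correspondence
packing number of `G` is at most `k`; more precisely every `2⌊k/2⌋`-fold correspondence cover of
`G` has a packing. -/
theorem result (k : ℕ) (hk : 6 ≤ k) (V : Type) [Fintype V] (G : SimpleGraph V)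
    (h : MadLT G ((k / 2 : ℕ) + 2)) :
    corrPackingNumber G ≤ k ∧ ∀ C : Cover G (2 * (k / 2)), C.HasPacking := by
  have hp := two_r (k / 2) (by omega) V G h
  exact ⟨(number_le (by omega) hp).trans (by omega), hp⟩

end Pool.Agent.Results.MP_6af60b_co.EvenCovers
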