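import Pool.Agent.H41.AUG.Final

set_option autoImplicit false

/-!
MP_6af60b_co: for `k ≥ 4` every graph with maximum average degree less than `(3k + 2) / 5` has
correspondence packing number (and list packing number) at most `k`.
-/

namespace Pool.Agent.Results.MP_6af60b_co.ThreeFifths

open Pool.Agent.H41.CP Pool.Agent.H41.AUG

/-- Let `k ≥ 4` and let `G` be a finite graph with `mad(G) < (3k + 2) / 5`. Then every `k`-fold
correspondence cover of `G` has a packing; so the correspondence packing number of `G` is at most
`k`. -/
theorem result (k : ℕ) (hk : 4 ≤ k) (V : Type) [Fintype V] (G : SimpleGraph V)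
    (h : MadLT G ((3 * k + 2) / 5)) :
    corrPackingNumber G ≤ k ∧ ∀ C : Cover G k, C.HasPacking :=
  ⟨number_le (by omega) (packing_mad G k hk h), packing_mad G k hk h⟩

end Pool.Agent.Results.MP_6af60b_co.ThreeFifths
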